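import Pool.Agent.W819.EN.Geom

/-!
# Two-point functions of the nesting statistics of critical bond percolation: statements

`Sys N W K`: `N F v r R` is the number of colour changes between the distances `r` and `R` of `v`,
`W F v b` is the cost of joining two chains in the annulus with the radii `b`, `2 b` around `v` and
`K F a b c d` is the cost of a crossing of the rectangle `[a, b] × [c, d]` from left to right.
-/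

namespace Pool.Agent.W819.NC
open H974 Finset Pool.Agent.W819.EN
open scoped Real

/-- number of colour changes -/
abbrev NT : Type := Finset Edg → Vtx → ℕ → ℕ → ℕ
/-- costs of annuli -/
abbrev WT : Type := Finset Edg → Vtx → ℕ → ℕ
/-- costs of rectangles -/
abbrev KT : Type := Finset Edg → ℤ → ℤ → ℤ → ℤ → ℕ

/-- the properties of `N`, `W`, `K` which are used -/
structure Sys (N : NT) (W : WT) (K : KT) : Prop where
  geo : Geo N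
  zero : ∀ (F : Finset Edg) (v : Vtx) (r : ℕ), N F v r r = 0
  incl : ∀ (F : Finset Edg) (v w : Vtx) (r R D : ℕ), |v.1 - w.1| ≤ D → |v.2 - w.2| ≤ D →
    N F v (r + D) R ≤ N F w r (R + D)
  join : ∀ (F : Finset Edg) (v : Vtx) (b r R : ℕ), 1 ≤ b → r ≤ b → 2 * b ≤ R →
    N F v r R ≤ N F v r (2 * b) + N F v b R + W F v b
  wloc : ∀ (F : Finset Edg) (v : Vtx) (b : ℕ), 1 ≤ b → W F v b = W (F ∩ an v b (2 * b)) v b
  wmom : ∀ s : ℝ, 1 ≤ s → ∃ C : ℝ, 0 < C ∧ ∀ (v : Vtx) (b : ℕ) (S : Finset Edg), 1 ≤ b →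
    bx v (2 * b) ⊆ S → Ex P2 S (fun F => s ^ W F v b) ≤ C
  right : ∀ (F : Finset Edg) (v : Vtx) (h r R : ℕ), h ≤ r → r ≤ R →
    N F v r R ≤ 2 * K F (v.1 + r) (v.1 + R) (v.2 - h) (v.2 + h)
  left : ∀ (F : Finset Edg) (v : Vtx) (h r R : ℕ), h ≤ r → r ≤ R →
    N F v r R ≤ 2 * K F (v.1 - R) (v.1 - r) (v.2 - h) (v.2 + h)
  kloc : ∀ (F : Finset Edg) (a b c d : ℤ), K F a b c d = K (F ∩ LRE a b c d) a b c d
  kmom : ∀ s : ℝ, 1 ≤ s → ∀ M : ℕ, ∃ C : ℝ, 0 < C ∧ ∀ (a b c d : ℤ) (S : Finset Edg),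
    1 ≤ d - c → a < b → b - a ≤ M * (d - c) → LRE a b c d ⊆ S →
    Ex P2 S (fun F => s ^ K F a b c d) ≤ C

/-! ### The concrete costs -/

/-- the cost of joining two chains in the annulus `b`, `2 b` -/
noncomputable def Wc : WT := fun F v b => 2 + 8 * sInf {k | Cir v b k F}

/-- the cost of a rectangle -/
noncomputable def Kc : KT := fun F a b c d => sInf {k | Opn k (LRE a b c d) (LRc a b c d) F}

/-- TAILM: superexponential tails of the cost of a rectangle, every aspect ratio -/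
def TailM : Prop := ∀ M : ℕ, ∀ ρ : ℝ, 0 < ρ → ∃ C : ℝ, 0 < C ∧
  ∀ w h : ℤ, 1 ≤ h → 0 < w → w ≤ M * h → ∀ k : ℕ,
    Pr P2 (LRE 0 w 0 h) (fun F => ¬ Opn k (LRE 0 w 0 h) (LRc 0 w 0 h) F) ≤ C * ρ ^ k

/-- MOM: superexponential tails give all exponential moments -/
def Mom : Prop := ∀ (s ρ C : ℝ), 1 ≤ s → 0 < ρ → s * ρ ≤ 1 / 2 → 0 < C →
  ∀ (S : Finset Edg) (X : Finset Edg → ℕ), (∀ k : ℕ, Pr P2 S (fun F => k < X F) ≤ C * ρ ^ k) →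
    Ex P2 S (fun F => s ^ X F) ≤ 1 + 2 * C * s

/-- geometric part of `Sys NA Wc Kc` -/
structure SysG : Prop where
  zero : ∀ (F : Finset Edg) (v : Vtx) (r : ℕ), NA F v r r = 0
  incl : ∀ (F : Finset Edg) (v w : Vtx) (r R D : ℕ), |v.1 - w.1| ≤ D → |v.2 - w.2| ≤ D →
    NA F v (r + D) R ≤ NA F w r (R + D)
  join : ∀ (F : Finset Edg) (v : Vtx) (b r R : ℕ), 1 ≤ b → r ≤ b → 2 * b ≤ R →
    NA F v r R ≤ NA F v r (2 * b) + NA F v b R + Wc F v b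
  wloc : ∀ (F : Finset Edg) (v : Vtx) (b : ℕ), 1 ≤ b → Wc F v b = Wc (F ∩ an v b (2 * b)) v b
  right : ∀ (F : Finset Edg) (v : Vtx) (h r R : ℕ), h ≤ r → r ≤ R →
    NA F v r R ≤ 2 * Kc F (v.1 + r) (v.1 + R) (v.2 - h) (v.2 + h)
  left : ∀ (F : Finset Edg) (v : Vtx) (h r R : ℕ), h ≤ r → r ≤ R →
    NA F v r R ≤ 2 * Kc F (v.1 - R) (v.1 - r) (v.2 - h) (v.2 + h)
  kloc : ∀ (F : Finset Edg) (a b c d : ℤ), Kc F a b c d = Kc (F ∩ LRE a b c d) a b c d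

/-! ### Generating functions of annuli -/

/-- the generating function of the number of changes in an annulus -/
noncomputable def G (N : NT) (t : ℝ) (r R : ℕ) : ℝ :=
  Ex P2 (bx (0, 0) R) (fun F => t ^ N F (0, 0) r R)

/-- LOCG: translation invariance and locality -/
def LocG (N : NT) : Prop := ∀ (t : ℝ) (v : Vtx) (r R : ℕ) (S : Finset Edg), r ≤ R →
  bx v R ⊆ S → Ex P2 S (fun F => t ^ N F v r R) = G N t r R

/-- AMOM: exponential moments of thin annuli -/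
def AMom (N : NT) : Prop := ∀ s : ℝ, 1 ≤ s → ∀ M : ℕ, ∃ C : ℝ, 0 < C ∧
  ∀ (v : Vtx) (r R : ℕ) (S : Finset Edg), 1 ≤ r → r ≤ R → R ≤ M * r → bx v R ⊆ S →
    Ex P2 S (fun F => s ^ N F v r R) ≤ C

/-- INB: the cost of the annulus outside of `b` under the law weighted by `t ^ N` -/
def InB (N : NT) (W : WT) : Prop := ∀ (t s : ℝ) (L : ℕ), 1 ≤ t → 1 ≤ s → ∃ A : ℝ, 0 < A ∧
  ∀ (v : Vtx) (r b R : ℕ) (S : Finset Edg), r ≤ b → 1 ≤ b → 2 * b ≤ R → R ≤ L * b → bx v R ⊆ S →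
    Ex P2 S (fun F => t ^ N F v r (2 * b) * s ^ (N F v b R + W F v b)) ≤ A * G N t r (2 * b)

/-- OUTB: the same for the annulus inside of `2 x` -/
def OutB (N : NT) (W : WT) : Prop := ∀ (t s : ℝ) (L : ℕ), 1 ≤ t → 1 ≤ s → ∃ A : ℝ, 0 < A ∧
  ∀ (v : Vtx) (y x R : ℕ) (S : Finset Edg), 1 ≤ y → y ≤ x → x ≤ L * y → 2 * x ≤ R → bx v R ⊆ S →
    Ex P2 S (fun F => t ^ N F v x R * s ^ (N F v y (2 * x) + W F v x)) ≤ A * G N t x R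

/-- DIN: doubling of the outer radius, `t ≤ 1` -/
def DIn (N : NT) : Prop := ∀ (t : ℝ) (M : ℕ), 0 < t → t ≤ 1 → ∃ A : ℝ, 0 < A ∧
  ∀ r R R' : ℕ, r ≤ R → 1 ≤ R → R ≤ R' → R' ≤ M * R → G N t r R ≤ A * G N t r R'

/-- DOUT: doubling of the inner radius, `t ≤ 1` -/
def DOut (N : NT) : Prop := ∀ (t : ℝ) (M : ℕ), 0 < t → t ≤ 1 → ∃ A : ℝ, 0 < A ∧
  ∀ r' r R : ℕ, 1 ≤ r' → r' ≤ r → r ≤ R → r ≤ M * r' → G N t r R ≤ A * G N t r' R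

/-- TIN: weighted laws and functions `Y` of the outer edges -/
def TIn (N : NT) : Prop := ∀ (t : ℝ) (M : ℕ), 0 < t → ∃ A : ℝ, 0 < A ∧
  ∀ (v : Vtx) (r R c : ℕ) (S T : Finset Edg) (Y : Finset Edg → ℝ), r ≤ R → 1 ≤ c → R ≤ M * c →
    bx v R ⊆ S → T ⊆ S → Disjoint T (bx v ((c : ℤ) - 1)) → (∀ F, 0 ≤ Y F) →
    (∀ F, F ⊆ S → Y F = Y (F ∩ T)) →
    Ex P2 S (fun F => t ^ N F v r R * Y F) ≤
      A * G N t r R * Real.sqrt (Ex P2 S (fun F => Y F ^ 2))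

/-- TOUT: weighted laws and functions `Y` of the inner edges -/
def TOut (N : NT) : Prop := ∀ (t : ℝ) (M : ℕ), 0 < t → ∃ A : ℝ, 0 < A ∧
  ∀ (v : Vtx) (r R c : ℕ) (S T : Finset Edg) (Y : Finset Edg → ℝ), 1 ≤ r → r ≤ R → c ≤ M * r →
    bx v R ⊆ S → T ⊆ S → T ⊆ bx v c → (∀ F, 0 ≤ Y F) →
    (∀ F, F ⊆ S → Y F = Y (F ∩ T)) →
    Ex P2 S (fun F => t ^ N F v r R * Y F) ≤
      A * G N t r R * Real.sqrt (Ex P2 S (fun F => Y F ^ 2))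

/-- DEC: decoupling by arithmetic and geometric means -/
def Dec : Prop := ∀ (s B : ℝ) (m : ℕ) (S : Finset Edg) (U f : Finset Edg → ℝ)
  (P : ℕ → Finset Edg → ℕ), 1 ≤ s → 1 ≤ m → 0 < B → (∀ F, 0 < U F) →
  (∀ j < m, Ex P2 S (fun F => U F * s ^ (m * P j F)) ≤ B * Ex P2 S U) →
  (∀ F, F ⊆ S → U F ≤ f F * s ^ (∑ j ∈ range m, P j F) ∧
    f F ≤ U F * s ^ (∑ j ∈ range m, P j F)) →
  Ex P2 S U ≤ B * Ex P2 S f ∧ Ex P2 S f ≤ B * Ex P2 S U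

/-- ONE: sharp one-point function -/
def OneS (N : NT) : Prop := ∀ t : ℝ, 0 < t → ∃ c C : ℝ, 0 < c ∧ 0 < C ∧ ∀ R : ℕ, 1 ≤ R →
  c * (R : ℝ) ^ Psi t ≤ G N t 0 R ∧ G N t 0 R ≤ C * (R : ℝ) ^ Psi t

/-- ANN: sharp generating functions of annuli -/
def AnnS (N : NT) : Prop := ∀ t : ℝ, 0 < t → ∃ c C : ℝ, 0 < c ∧ 0 < C ∧ ∀ r R : ℕ, 1 ≤ r →
  r ≤ R → c * ((R : ℝ) / r) ^ Psi t ≤ G N t r R ∧ G N t r R ≤ C * ((R : ℝ) / r) ^ Psi t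

/-! ### Two points -/

/-- XP: pieces around one of the two points -/
def XPc (N : NT) (W : WT) : Prop := ∀ (t s : ℝ), 0 < t → 1 ≤ s → ∃ A : ℝ, 0 < A ∧
  ∀ (u : Vtx) (a : ℕ) (S : Finset Edg), 1 ≤ a → bx u (8 * a) ⊆ S →
    Ex P2 S (fun F => t ^ N F u 0 (2 * a) * s ^ W F u a) ≤ A * G N t 0 (2 * a) ∧
    Ex P2 S (fun F => t ^ N F u 0 (2 * a) * s ^ N F u a (8 * a)) ≤ A * G N t 0 (2 * a) ∧
    Ex P2 S (fun F => t ^ N F u 0 (2 * a) * s ^ W F u (4 * a)) ≤ A * G N t 0 (2 * a)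

/-- ZP: pieces of the annulus around both points -/
def ZPc (N : NT) (W : WT) : Prop := ∀ (t s : ℝ), 0 < t → 1 ≤ s → ∃ A : ℝ, 0 < A ∧
  ∀ (v u : Vtx) (D n : ℕ) (S : Finset Edg), 1 ≤ D → 10 * D ≤ n → |u.1 - v.1| ≤ D →
    |u.2 - v.2| ≤ D → bx v (n + D) ⊆ S →
    Ex P2 S (fun F => t ^ N F v (4 * D) (n - D) * s ^ W F u (3 * D)) ≤
      A * G N t (4 * D) (n - D) ∧
    Ex P2 S (fun F => t ^ N F v (4 * D) (n - D) * s ^ N F v (2 * D) (8 * D)) ≤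
      A * G N t (4 * D) (n - D) ∧
    Ex P2 S (fun F => t ^ N F v (4 * D) (n - D) * s ^ W F v (4 * D)) ≤
      A * G N t (4 * D) (n - D) ∧
    Ex P2 S (fun F => t ^ N F v (4 * D) (n - D) * s ^ W F v ((n - D) / 2)) ≤
      A * G N t (4 * D) (n - D) ∧
    Ex P2 S (fun F => t ^ N F v (4 * D) (n - D) * s ^ N F v ((n - D) / 2) (n + D)) ≤
      A * G N t (4 * D) (n - D)

/-- KP: the corridors -/
def KPc (N : NT) (K : KT) : Prop := ∀ (t s : ℝ), 0 < t → 1 ≤ s → ∃ A : ℝ, 0 < A ∧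
  ∀ (v u : Vtx) (a D n : ℕ) (S : Finset Edg), 1 ≤ a → 64 * a ≤ D → D < 128 * a → 10 * D ≤ n →
    |u.1 - v.1| ≤ D → |u.2 - v.2| ≤ D → bx v (n + D) ⊆ S →
    Ex P2 S (fun F => t ^ N F v (4 * D) (n - D) *
      s ^ K F (u.1 + 4 * a) (u.1 + 6 * D) (u.2 - 4 * a) (u.2 + 4 * a)) ≤
      A * G N t (4 * D) (n - D) ∧
    Ex P2 S (fun F => t ^ N F v (4 * D) (n - D) *
      s ^ K F (u.1 - 6 * D) (u.1 - 4 * a) (u.2 - 4 * a) (u.2 + 4 * a)) ≤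
      A * G N t (4 * D) (n - D)

/-- PW: the number of changes around a point `u` near `v` -/
def Pw (N : NT) (W : WT) : Prop := ∀ (F : Finset Edg) (v u : Vtx) (D n : ℕ), 1 ≤ D →
  10 * D ≤ n → |u.1 - v.1| ≤ D → |u.2 - v.2| ≤ D →
  (∀ a : ℕ, 2 * a < 3 * D → N F u 0 (2 * a) + N F v (4 * D) (n - D) ≤ N F u 0 n) ∧
  (N F u 0 n ≤ N F u 0 (6 * D) + (N F v (4 * D) (n - D) + W F u (3 * D) + N F v (2 * D) (8 * D) +
      W F v (4 * D) + W F v ((n - D) / 2) + N F v ((n - D) / 2) (n + D))) ∧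
  (∀ a : ℕ, 1 ≤ a → 64 * a ≤ D →
    N F u 0 n ≤ N F u 0 (2 * a) + (W F u a + N F u a (8 * a) + W F u (4 * a)) +
      N F u (4 * a) (6 * D) +
      (N F v (4 * D) (n - D) + W F u (3 * D) + N F v (2 * D) (8 * D) +
      W F v (4 * D) + W F v ((n - D) / 2) + N F v ((n - D) / 2) (n + D)))

/-- the two-point function in finite volume -/
noncomputable def T2 (N : NT) (t1 t2 : ℝ) (v w : Vtx) (n : ℕ) (S : Finset Edg) : ℝ :=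
  Ex P2 S (fun F => t1 ^ N F v 0 n * t2 ^ N F w 0 n)

/-- TWO1: distant points in a large box -/
def Two1 (N : NT) : Prop := ∀ t1 t2 : ℝ, 0 < t1 → 0 < t2 → ∃ B : ℝ, 0 < B ∧
  ∀ (v w : Vtx) (a D n : ℕ) (S : Finset Edg), 1 ≤ a → 64 * a ≤ D → D < 128 * a → 10 * D ≤ n →
    v.1 ≤ w.1 → |v.1 - w.1| ≤ D → |v.2 - w.2| ≤ D → (w.1 - v.1 = D ∨ |v.2 - w.2| = D) →
    bx v (n + D) ⊆ S →
    G N t1 0 (2 * a) * G N t2 0 (2 * a) * G N (t1 * t2) (4 * D) (n - D) ≤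
      B * T2 N t1 t2 v w n S ∧
    T2 N t1 t2 v w n S ≤
      B * (G N t1 0 (2 * a) * G N t2 0 (2 * a) * G N (t1 * t2) (4 * D) (n - D))

/-- TWO2: distant points in a box of comparable size -/
def Two2 (N : NT) : Prop := ∀ t1 t2 : ℝ, 0 < t1 → 0 < t2 → ∃ B : ℝ, 0 < B ∧
  ∀ (v w : Vtx) (a D n : ℕ) (S : Finset Edg), 1 ≤ a → 64 * a ≤ D → D < 128 * a → D ≤ n →
    n ≤ 10 * D → v.1 ≤ w.1 → |v.1 - w.1| ≤ D → |v.2 - w.2| ≤ D →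
    (w.1 - v.1 = D ∨ |v.2 - w.2| = D) → bx v (12 * D) ⊆ S →
    G N t1 0 (2 * a) * G N t2 0 (2 * a) ≤ B * T2 N t1 t2 v w n S ∧
    T2 N t1 t2 v w n S ≤ B * (G N t1 0 (2 * a) * G N t2 0 (2 * a))

/-- TWO3: near points in a large box -/
def Two3 (N : NT) : Prop := ∀ t1 t2 : ℝ, 0 < t1 → 0 < t2 → ∃ B : ℝ, 0 < B ∧
  ∀ (v w : Vtx) (D n : ℕ) (S : Finset Edg), 1 ≤ D → D < 64 → 10 * D ≤ n →
    |v.1 - w.1| ≤ D → |v.2 - w.2| ≤ D → bx v (n + D) ⊆ S →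
    G N (t1 * t2) (4 * D) (n - D) ≤ B * T2 N t1 t2 v w n S ∧
    T2 N t1 t2 v w n S ≤ B * G N (t1 * t2) (4 * D) (n - D)

/-- FIN: the two-point function -/
def TwoPt (N : NT) : Prop := ∀ t1 t2 : ℝ, 0 < t1 → 0 < t2 → ∃ c C : ℝ, 0 < c ∧ 0 < C ∧
  ∀ (v w : Vtx) (d n : ℕ) (S : Finset Edg), 1 ≤ d → d ≤ n → max |v.1 - w.1| |v.2 - w.2| = d →
    bx v n ⊆ S → bx w n ⊆ S →
    c * (((n : ℝ) / d) ^ Psi (t1 * t2) * (d : ℝ) ^ (Psi t1 + Psi t2)) ≤ T2 N t1 t2 v w n S ∧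
    T2 N t1 t2 v w n S ≤ C * (((n : ℝ) / d) ^ Psi (t1 * t2) * (d : ℝ) ^ (Psi t1 + Psi t2))

end Pool.Agent.W819.NC
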