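import Pool.Agent.W819.NC.Stm
import Pool.Agent.H863R2.NL.Bad

/-!
# Two-point functions of the nesting statistics: statements about the cylinder
-/

namespace Pool.Agent.W819.NC
open H974 H906.Cyl Finset Pool.Agent.W819.EN

/-- BADX: superexponential tails of the bad event of the cylinder, independently of the inner
box -/
def BadX : Prop := ∀ ρ : ℝ, 0 < ρ → ∃ C : ℝ, 0 < C ∧ ∀ a : ℕ, 0 < a → ∀ φ : Finset Edg → ℝ,
  (∀ F, 0 ≤ φ F) → (∀ F, F ⊆ CE (10 * a) (20 * a) →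
    φ F = φ (F ∩ (boxE (2 * a - 1)).image (red (10 * a)))) → ∀ k : ℕ,
  Ex P2 (CE (10 * a) (20 * a))
    (fun F => φ F * ind (¬ Pool.Agent.H863R2.NL.Good (10 * a) (2 * a) k F)) ≤
    C * ρ ^ k * Ex P2 (CE (10 * a) (20 * a)) φ

/-- ONELO: sharp lower bound of the one-point function, `t ≥ 1` -/
def OneLo : Prop := ∀ t : ℝ, 1 ≤ t → ∃ c : ℝ, 0 < c ∧ ∀ R : ℕ, 1 ≤ R →
  c * (R : ℝ) ^ Psi t ≤ G NA t 0 R

end Pool.Agent.W819.NC
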