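import Pool.Agent.W819.EN.OneP
import Pool.Agent.W819.NC.Stm2

/-! # Sharp one-point function -/

set_option autoImplicit false

namespace Pool.Agent.W819.NC
open H974 H906.Cyl Finset Pool.Agent.W819.EN
open Pool.Agent.H863R2.NL (ET ET_pow psi)

theorem G_ET (t : ℝ) (R : ℕ) : G NA t 0 R = ET R (fun m => t ^ m) := by
  rw [ET_eq]
  rfl

theorem t_ONES (hI : SInt) (h : OneLo) : OneS NA := by
  intro t ht
  rcases le_or_gt t 1 with ht1 | ht1
  · obtain ⟨c, C, hc, hC, h1⟩ := ET_pow ht ht1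
    refine ⟨c, C, hc, hC, ?_⟩
    intro R hR
    rw [G_ET, OneP.Psi_le_one ht1]
    exact h1 R hR
  · obtain ⟨c, hc, h1⟩ := h t ht1.le
    obtain ⟨C, hC, h2⟩ := OneP.up hI (Real.log_pos ht1)
    refine ⟨c, C, hc, hC, ?_⟩
    intro R hR
    refine ⟨h1 R hR, ?_⟩
    have := h2 R hR
    unfold EN.Lam at this
    rw [Real.exp_log ht] at this
    rw [G_ET]
    exact this

end Pool.Agent.W819.NC
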