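import Pool.Agent.W819.NC.Stm

/-! # Pointwise bounds around two points -/

set_option autoImplicit false

namespace Pool.Agent.W819.NC
open H974 Finset Pool.Agent.W819.EN

theorem t_PW {N : NT} {W : WT} {K : KT} (h : Sys N W K) : Pw N W := by
  intro F v u D n hD hn h1 h2
  have h1' : |v.1 - u.1| ≤ D := by rw [abs_sub_comm]; exact h1
  have h2' : |v.2 - u.2| ≤ D := by rw [abs_sub_comm]; exact h2
  have low : N F v (4 * D) (n - D) ≤ N F u (3 * D) n := by
    have := h.incl F v u (3 * D) (n - D) D h1' h2'
    have e1 : 3 * D + D = 4 * D := by ring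
    have e2 : n - D + D = n := by omega
    rwa [e1, e2] at this
  have up : N F u (3 * D) n ≤ N F v (4 * D) (n - D) + N F v (2 * D) (8 * D) +
      W F v (4 * D) + W F v ((n - D) / 2) + N F v ((n - D) / 2) (n + D) := by
    have a1 : N F u (3 * D) n ≤ N F v (2 * D) (n + D) := by
      have := h.incl F u v (2 * D) n D h1 h2
      have e1 : 2 * D + D = 3 * D := by ring
      rwa [e1] at this
    have a2 := h.join F v (4 * D) (2 * D) (n + D) (by omega) (by omega) (by omega)
    have e3 : 2 * (4 * D) = 8 * D := by ring
    rw [e3] at a2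
    have a3 := h.join F v ((n - D) / 2) (4 * D) (n + D) (by omega) (by omega) (by omega)
    have a4 : N F v (4 * D) (2 * ((n - D) / 2)) ≤ N F v (4 * D) (n - D) :=
      h.geo.mono F v (4 * D) (4 * D) (2 * ((n - D) / 2)) (n - D) le_rfl (by omega)
    omega
  refine ⟨?_, ?_, ?_⟩
  · intro a ha
    have := h.geo.super F u 0 (2 * a) (3 * D) n (by omega) (by omega) (by omega)
    omega
  · have a0 := h.join F u (3 * D) 0 n (by omega) (by omega) (by omega)
    have e3 : 2 * (3 * D) = 6 * D := by ring
    rw [e3] at a0
    omega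
  · intro a ha1 ha2
    have b1 := h.join F u a 0 n ha1 (by omega) (by omega)
    have b2 := h.join F u (4 * a) a n (by omega) (by omega) (by omega)
    have b3 := h.join F u (3 * D) (4 * a) n (by omega) (by omega) (by omega)
    have e2 : 2 * (4 * a) = 8 * a := by ring
    have e3 : 2 * (3 * D) = 6 * D := by ring
    rw [e2] at b2
    rw [e3] at b3
    omega

end Pool.Agent.W819.NC
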