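import Pool.Agent.W819.NC.Help

/-! # Pieces around one point -/

set_option autoImplicit false

namespace Pool.Agent.W819.NC
open H974 Finset Pool.Agent.W819.EN

theorem t_XP {N : NT} {W : WT} {K : KT} (h : Sys N W K) (ha : AMom N) (hi : TIn N) : XPc N W := by
  intro t s ht hs
  obtain ⟨A1, hA1, h1⟩ := hi t 2 ht
  obtain ⟨A2, hA2, h2⟩ := hi t 1 ht
  have hs2 : (1 : ℝ) ≤ s ^ 2 := one_le_pow₀ hs
  obtain ⟨C1, hC1, g1⟩ := h.wmom (s ^ 2) hs2
  obtain ⟨C2, hC2, g2⟩ := ha (s ^ 2) hs2 8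
  refine ⟨A1 * Real.sqrt C1 + A1 * Real.sqrt C2 + A2 * Real.sqrt C1, by positivity, ?_⟩
  have p1 : 0 < A1 * Real.sqrt C1 := by positivity
  have p2 : 0 < A1 * Real.sqrt C2 := by positivity
  have p3 : 0 < A2 * Real.sqrt C1 := by positivity
  intro u a S ha1 hS
  have hs0 : 0 ≤ s := by linarith
  have b1 : bx u ((2 * a : ℕ) : ℤ) ⊆ S := (bx_mono u (by push_cast; omega)).trans hS
  have b2 : bx u ((8 * a : ℕ) : ℤ) ⊆ S := by push_cast; exact hS
  refine ⟨?_, ?_, ?_⟩
  · have := h1 u 0 (2 * a) a S (an u a (2 * a)) (fun F => s ^ W F u a) (by omega) ha1 le_rfl b1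
      (an_sub.trans b1) (an_disj le_rfl) (fun F => by positivity)
      (fun F _ => by rw [wloc' h ha1 (Subset.refl _) F])
    simp only [sq_pow] at this
    exact fin (t := t) this (g1 u a S ha1 (by
      have : ((2 * a : ℕ) : ℤ) = 2 * (a : ℤ) := by push_cast; ring
      rw [← this]; exact b1)) hA1 (G_nonneg N ht _ _) (by linarith)
  · have := h1 u 0 (2 * a) a S (an u a (8 * a)) (fun F => s ^ N F u a (8 * a)) (by omega) ha1
      le_rfl b1 (an_sub.trans b2) (an_disj le_rfl) (fun F => by positivity)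
      (fun F _ => by rw [loc' h.geo (by omega) (Subset.refl _) F])
    simp only [sq_pow] at this
    exact fin (t := t) this (g2 u a (8 * a) S ha1 (by omega) le_rfl b2) hA1 (G_nonneg N ht _ _)
      (by linarith)
  · have b3 : bx u ((2 * (4 * a) : ℕ) : ℤ) ⊆ S := (bx_mono u (by push_cast; omega)).trans hS
    have := h2 u 0 (2 * a) (4 * a) S (an u (4 * a) (2 * (4 * a))) (fun F => s ^ W F u (4 * a))
      (by omega) (by omega) (by omega) b1 (an_sub.trans b3) (an_disj le_rfl)
      (fun F => by positivity) (fun F _ => by rw [wloc' h (by omega) (Subset.refl _) F])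
    simp only [sq_pow] at this
    exact fin (t := t) this (g1 u (4 * a) S (by omega) (by
      have : ((2 * (4 * a) : ℕ) : ℤ) = 2 * ((4 * a : ℕ) : ℤ) := by push_cast; ring
      rw [← this]; exact b3)) hA2 (G_nonneg N ht _ _) (by linarith)

end Pool.Agent.W819.NC
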