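import Pool.Agent.W819.NC.Help

/-! # Pieces around both points -/

set_option autoImplicit false

namespace Pool.Agent.W819.NC
open H974 Finset Pool.Agent.W819.EN

theorem t_ZP {N : NT} {W : WT} {K : KT} (h : Sys N W K) (ha : AMom N) (hi : TIn N)
    (ho : TOut N) : ZPc N W := by
  intro t s ht hs
  obtain ⟨A1, hA1, h1⟩ := ho t 2 ht
  obtain ⟨A2, hA2, h2⟩ := hi t 3 ht
  have hs2 : (1 : ℝ) ≤ s ^ 2 := one_le_pow₀ hs
  obtain ⟨C1, hC1, g1⟩ := h.wmom (s ^ 2) hs2
  obtain ⟨C2, hC2, g2⟩ := ha (s ^ 2) hs2 4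
  refine ⟨A1 * Real.sqrt C1 + A1 * Real.sqrt C2 + A2 * Real.sqrt C1 + A2 * Real.sqrt C2,
    by positivity, ?_⟩
  have p1 : 0 < A1 * Real.sqrt C1 := by positivity
  have p2 : 0 < A1 * Real.sqrt C2 := by positivity
  have p3 : 0 < A2 * Real.sqrt C1 := by positivity
  have p4 : 0 < A2 * Real.sqrt C2 := by positivity
  intro v u D n S hD hn hu1 hu2 hS
  have hs0 : 0 ≤ s := by linarith
  have hG0 := G_nonneg N ht (4 * D) (n - D)
  have bb : ∀ k : ℕ, k ≤ n + D → bx v (k : ℤ) ⊆ S := fun k hk =>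
    (bx_mono v (by omega)).trans hS
  have bR := bb (n - D) (by omega)
  have b8 := bb (8 * D) (by omega)
  have hu : bx u ((2 * (3 * D) : ℕ) : ℤ) ⊆ bx v ((8 * D : ℕ) : ℤ) :=
    bx_sub (by push_cast; omega) (by push_cast; omega)
  have cst : ∀ k : ℕ, ((2 * k : ℕ) : ℤ) = 2 * (k : ℤ) := fun k => by push_cast; ring
  refine ⟨?_, ?_, ?_, ?_, ?_⟩
  · have := h1 v (4 * D) (n - D) (8 * D) S (an u (3 * D) (2 * (3 * D)))
      (fun F => s ^ W F u (3 * D)) (by omega) (by omega) (by omega) bR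
      ((an_sub.trans hu).trans b8) (an_sub.trans hu) (fun F => by positivity)
      (fun F _ => by rw [wloc' h (by omega) (Subset.refl _) F])
    simp only [sq_pow] at this
    exact fin (t := t) this (g1 u (3 * D) S (by omega) (by rw [← cst]; exact hu.trans b8)) hA1 hG0
      (by linarith)
  · have := h1 v (4 * D) (n - D) (8 * D) S (an v (2 * D) (8 * D))
      (fun F => s ^ N F v (2 * D) (8 * D)) (by omega) (by omega) (by omega) bR
      (an_sub.trans b8) an_sub (fun F => by positivity)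
      (fun F _ => by rw [loc' h.geo (by omega) (Subset.refl _) F])
    simp only [sq_pow] at this
    exact fin (t := t) this (g2 v (2 * D) (8 * D) S (by omega) (by omega) (by omega) b8) hA1 hG0
      (by linarith)
  · have e : 2 * (4 * D) = 8 * D := by ring
    have := h1 v (4 * D) (n - D) (8 * D) S (an v (4 * D) (2 * (4 * D)))
      (fun F => s ^ W F v (4 * D)) (by omega) (by omega) (by omega) bR
      (an_sub.trans (by rw [e]; exact b8)) (an_sub.trans (by rw [e])) (fun F => by positivity)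
      (fun F _ => by rw [wloc' h (by omega) (Subset.refl _) F])
    simp only [sq_pow] at this
    exact fin (t := t) this (g1 v (4 * D) S (by omega) (by rw [← cst, e]; exact b8)) hA1 hG0
      (by linarith)
  · have b2 := bb (2 * ((n - D) / 2)) (by omega)
    have := h2 v (4 * D) (n - D) ((n - D) / 2) S (an v ((n - D) / 2) (2 * ((n - D) / 2)))
      (fun F => s ^ W F v ((n - D) / 2)) (by omega) (by omega) (by omega) bR
      (an_sub.trans b2) (an_disj le_rfl) (fun F => by positivity)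
      (fun F _ => by rw [wloc' h (by omega) (Subset.refl _) F])
    simp only [sq_pow] at this
    exact fin (t := t) this (g1 v ((n - D) / 2) S (by omega) (by rw [← cst]; exact b2)) hA2 hG0
      (by linarith)
  · have b2 := bb (n + D) le_rfl
    have := h2 v (4 * D) (n - D) ((n - D) / 2) S (an v ((n - D) / 2) (n + D))
      (fun F => s ^ N F v ((n - D) / 2) (n + D)) (by omega) (by omega) (by omega) bR
      (an_sub.trans b2) (an_disj le_rfl) (fun F => by positivity)
      (fun F _ => by rw [loc' h.geo (by omega) (Subset.refl _) F])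
    simp only [sq_pow] at this
    exact fin (t := t) this (g2 v ((n - D) / 2) (n + D) S (by omega) (by omega) (by omega) b2)
      hA2 hG0 (by linarith)

theorem t_KP {N : NT} {W : WT} {K : KT} (h : Sys N W K) (ho : TOut N) : KPc N K := by
  intro t s ht hs
  obtain ⟨A1, hA1, h1⟩ := ho t 2 ht
  have hs2 : (1 : ℝ) ≤ s ^ 2 := one_le_pow₀ hs
  obtain ⟨C1, hC1, g1⟩ := h.kmom (s ^ 2) hs2 96
  refine ⟨A1 * Real.sqrt C1, by positivity, ?_⟩
  intro v u a D n S ha1 ha2 ha3 hn hu1 hu2 hS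
  have hs0 : 0 ≤ s := by linarith
  have hG0 := G_nonneg N ht (4 * D) (n - D)
  have bb : ∀ k : ℕ, k ≤ n + D → bx v (k : ℤ) ⊆ S := fun k hk =>
    (bx_mono v (by omega)).trans hS
  have bR := bb (n - D) (by omega)
  have b8 := bb (8 * D) (by omega)
  have q1 := le_abs_self (u.1 - v.1)
  have q2 := neg_abs_le (u.1 - v.1)
  have q3 := le_abs_self (u.2 - v.2)
  have q4 := neg_abs_le (u.2 - v.2)
  have main : ∀ x1 x2 : ℤ, x1 < x2 → x2 - x1 ≤ 96 * (8 * a) →
      LRE x1 x2 (u.2 - 4 * a) (u.2 + 4 * a) ⊆ bx v ((8 * D : ℕ) : ℤ) →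
      Ex P2 S (fun F => t ^ N F v (4 * D) (n - D) *
        s ^ K F x1 x2 (u.2 - 4 * a) (u.2 + 4 * a)) ≤
        A1 * Real.sqrt C1 * G N t (4 * D) (n - D) := by
    intro x1 x2 hx hx2 hsub
    have := h1 v (4 * D) (n - D) (8 * D) S (LRE x1 x2 (u.2 - 4 * a) (u.2 + 4 * a))
      (fun F => s ^ K F x1 x2 (u.2 - 4 * a) (u.2 + 4 * a)) (by omega) (by omega) (by omega) bR
      (hsub.trans b8) hsub (fun F => by positivity)
      (fun F _ => by rw [h.kloc F])
    simp only [sq_pow] at this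
    exact fin (t := t) this (g1 x1 x2 (u.2 - 4 * a) (u.2 + 4 * a) S (by omega) hx
      (by push_cast; linarith) (hsub.trans b8)) hA1 hG0 le_rfl
  have hsub : ∀ x1 x2 : ℤ, u.1 - 6 * D ≤ x1 → x2 ≤ u.1 + 6 * D →
      LRE x1 x2 (u.2 - 4 * a) (u.2 + 4 * a) ⊆ bx v ((8 * D : ℕ) : ℤ) := by
    intro x1 x2 h1 h2
    refine LRE_subset_RE.trans ?_
    unfold bx
    apply RE_subset <;> push_cast <;> omega
  exact ⟨main _ _ (by omega) (by omega) (hsub _ _ (by omega) (by omega)),
    main _ _ (by omega) (by omega) (hsub _ _ (by omega) (by omega))⟩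

end Pool.Agent.W819.NC
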