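import Pool.Agent.W819.EN.Final
import Pool.Agent.W12.NC.G1
import Pool.Agent.W405.NC.G2
import Pool.Agent.W12.NC.TailM
import Pool.Agent.W440.NC.MomSys
import Pool.Agent.W672.NC.Locg
import Pool.Agent.W12.NC.InB
import Pool.Agent.W933.NC.OutB
import Pool.Agent.W509.NC.Dbl
import Pool.Agent.W74.NC.TIN
import Pool.Agent.W790.NC.TOut
import Pool.Agent.W671.NC.Dec
import Pool.Agent.W819.NC.Xp
import Pool.Agent.W819.NC.Zp
import Pool.Agent.W819.NC.Pw
import Pool.Agent.W819.NC.OneLo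
import Pool.Agent.W819.NC.OneS
import Pool.Agent.W683.NC.Two1
import Pool.Agent.W460.NC.TWO2
import Pool.Agent.W310.NC.Two3
import Pool.Agent.W585.NC.ANN
import Pool.Agent.W688.NC.FIN
import Pool.Agent.W52.NC.Badx
import Pool.Agent.W52.NC.Trans

/-! # Two-point functions of the nesting statistics: assembly -/

set_option autoImplicit false

namespace Pool.Agent.W819.NC
open H974 Finset Pool.Agent.W819.EN MeasureTheory

theorem slab : Slab := Pool.Agent.W320.EN.t_SLAB bkr Pool.Agent.W554.EN2.t_SUM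

theorem sysG : SysG where
  zero := Pool.Agent.W12.NC.t_ZERO
  incl := Pool.Agent.W12.NC.t_INCL
  join := Pool.Agent.W405.NC.t_JOIN
  wloc := Pool.Agent.W405.NC.t_WLOC
  right := Pool.Agent.W12.NC.t_RIGHT
  left := Pool.Agent.W12.NC.t_LEFT
  kloc := Pool.Agent.W405.NC.t_KLOC

theorem sys : Sys NA Wc Kc :=
  Pool.Agent.W440.NC.t_SYS geoNA sysG (Pool.Agent.W12.NC.t_TAILM slab) Pool.Agent.W440.NC.t_MOM

theorem locG : LocG NA := Pool.Agent.W672.NC.t_LOCG geoNA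
theorem aMom : AMom NA := Pool.Agent.W672.NC.t_AMOM sys
theorem inB : InB NA Wc := Pool.Agent.W12.NC.t_INB sys locG aMom
theorem outB : OutB NA Wc := Pool.Agent.W933.NC.t_OUTB sys locG aMom
theorem dIn : DIn NA := Pool.Agent.W509.NC.t_DIN sys locG aMom
theorem dOut : DOut NA := Pool.Agent.W509.NC.t_DOUT sys locG aMom
theorem tIn : TIn NA := Pool.Agent.W74.NC.t_TIN sys locG aMom inB dIn
theorem tOut : TOut NA := Pool.Agent.W790.NC.t_TOUT sys locG aMom outB dOut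
theorem badX : BadX := Pool.Agent.W52.NC.t_BADX tailAll
theorem oneS : OneS NA := t_ONES Pool.Agent.W762.EN.t_INT
  (t_ONELO Pool.Agent.W762.EN.t_INT sys locG inB badX)
theorem annS : AnnS NA := Pool.Agent.W585.NC.t_ANN sys locG aMom Pool.Agent.W671.NC.t_DEC tIn tOut
  oneS
theorem two1 : Two1 NA := Pool.Agent.W683.NC.t_TWO1 sys locG Pool.Agent.W671.NC.t_DEC
  (t_XP sys aMom tIn) (t_ZP sys aMom tIn tOut) (t_KP sys tOut) (t_PW sys)
theorem two2 : Two2 NA := Pool.Agent.W460.NC.t_TWO2 sys locG Pool.Agent.W671.NC.t_DEC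
  (t_XP sys aMom tIn)
theorem two3 : Two3 NA := Pool.Agent.W310.NC.t_TWO3 sys locG Pool.Agent.W671.NC.t_DEC
  (t_ZP sys aMom tIn tOut) (t_PW sys)
theorem twoPt : TwoPt NA := Pool.Agent.W688.NC.t_FIN sys oneS annS two1 two2 two3

theorem final (t1 t2 : ℝ) (h1 : 0 < t1) (h2 : 0 < t2) : ∃ c C : ℝ, 0 < c ∧ 0 < C ∧
    ∀ (v w : ℤ × ℤ) (n d : ℕ), 1 ≤ d → d ≤ n → max |v.1 - w.1| |v.2 - w.2| = d →
      c * (((n : ℝ) / d) ^ Psi (t1 * t2) * (d : ℝ) ^ (Psi t1 + Psi t2)) ≤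
        ∫ ω, t1 ^ layers n v ω * t2 ^ layers n w ω ∂(bondLaw hlf) ∧
      ∫ ω, t1 ^ layers n v ω * t2 ^ layers n w ω ∂(bondLaw hlf) ≤
        C * (((n : ℝ) / d) ^ Psi (t1 * t2) * (d : ℝ) ^ (Psi t1 + Psi t2)) := by
  obtain ⟨c, C, hc, hC, h⟩ := twoPt t1 t2 h1 h2
  refine ⟨c, C, hc, hC, ?_⟩
  intro v w n d hd hdn hvw
  have := h v w d n (bx v n ∪ bx w n) hd hdn hvw subset_union_left subset_union_right
  rw [Pool.Agent.W52.NC.t_TRANS t1 t2 v w n (bx v n ∪ bx w n) subset_union_left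
    subset_union_right]
  exact this

end Pool.Agent.W819.NC
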