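import Pool.Agent.W819.NC.Stm

/-! # Auxiliary lemmas -/

set_option autoImplicit false

namespace Pool.Agent.W819.NC
open H974 Finset Pool.Agent.W819.EN

theorem ok2 : Ok P2 := fun _ => ⟨by norm_num [P2], by norm_num [P2]⟩

theorem bx_mono (v : Vtx) {k l : ℤ} (h : k ≤ l) : bx v k ⊆ bx v l := by
  unfold bx
  exact RE_subset (by omega) (by omega) (by omega) (by omega)

/-- inclusion of boxes with different centers -/
theorem bx_sub {v w : Vtx} {k l : ℤ} (h1 : |v.1 - w.1| + k ≤ l) (h2 : |v.2 - w.2| + k ≤ l) :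
    bx v k ⊆ bx w l := by
  have a1 := le_abs_self (v.1 - w.1)
  have a2 := neg_abs_le (v.1 - w.1)
  have a3 := le_abs_self (v.2 - w.2)
  have a4 := neg_abs_le (v.2 - w.2)
  unfold bx
  exact RE_subset (by omega) (by omega) (by omega) (by omega)

theorem an_sub {v : Vtx} {r R : ℕ} : an v r R ⊆ bx v R := sdiff_subset

theorem an_disj {v : Vtx} {r R : ℕ} {k : ℤ} (h : k ≤ (r : ℤ) - 1) :
    Disjoint (an v r R) (bx v k) := by
  rw [Finset.disjoint_left]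
  intro e he he'
  exact (mem_sdiff.1 he).2 (bx_mono v h he')

theorem loc' {N : NT} (hG : Geo N) {v : Vtx} {r R : ℕ} (h : r ≤ R)
    {S : Finset Edg} (hS : an v r R ⊆ S) (F : Finset Edg) : N F v r R = N (F ∩ S) v r R := by
  rw [hG.loc F v r R h, hG.loc (F ∩ S) v r R h]
  congr 1
  ext x
  simp only [Finset.mem_inter]
  constructor
  · rintro ⟨h1, h2⟩
    exact ⟨⟨h1, hS h2⟩, h2⟩
  · rintro ⟨⟨h1, -⟩, h2⟩
    exact ⟨h1, h2⟩

theorem wloc' {N : NT} {W : WT} {K : KT} (h : Sys N W K) {v : Vtx} {b : ℕ} (hb : 1 ≤ b)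
    {S : Finset Edg} (hS : an v b (2 * b) ⊆ S) (F : Finset Edg) : W F v b = W (F ∩ S) v b := by
  rw [h.wloc F v b hb, h.wloc (F ∩ S) v b hb]
  congr 1
  ext x
  simp only [Finset.mem_inter]
  constructor
  · rintro ⟨h1, h2⟩
    exact ⟨⟨h1, hS h2⟩, h2⟩
  · rintro ⟨⟨h1, -⟩, h2⟩
    exact ⟨h1, h2⟩

/-- a bound for the square root factor -/
theorem fin {t A B g C x : ℝ} {a : ℝ} (hx : x ≤ A * g * Real.sqrt a) (ha : a ≤ C) (hA : 0 < A)
    (hg : 0 ≤ g) (hB : A * Real.sqrt C ≤ B) : x ≤ B * g := by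
  have h1 : Real.sqrt a ≤ Real.sqrt C := Real.sqrt_le_sqrt ha
  calc x ≤ A * g * Real.sqrt a := hx
    _ ≤ A * g * Real.sqrt C := mul_le_mul_of_nonneg_left h1 (by positivity)
    _ = A * Real.sqrt C * g := by ring
    _ ≤ B * g := mul_le_mul_of_nonneg_right hB hg

theorem G_nonneg (N : NT) {t : ℝ} (ht : 0 < t) (r R : ℕ) : 0 ≤ G N t r R :=
  Ex_nonneg ok2 fun _ _ => by positivity

theorem sq_pow (s : ℝ) (k : ℕ) : (s ^ k) ^ 2 = (s ^ 2) ^ k := by
  rw [← pow_mul, ← pow_mul, mul_comm]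

end Pool.Agent.W819.NC
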