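import Pool.Agent.W819.EN.Cyl
import Pool.Agent.W819.EN.Bridge
import Pool.Agent.H863R2.NL.Cmp
import Pool.Agent.W819.NC.Help
import Pool.Agent.W819.NC.Stm2

/-! # Sharp lower bound for the one-point function -/

set_option autoImplicit false

namespace Pool.Agent.W819.NC.OneLoAux
open H974 H906.Cyl Finset Pool.Agent.W819.EN
open Pool.Agent.H863R2.NL (EN ET TT Good mu fN EN_avg Ex_per mu_nonneg mu_sum f_le fN_spec
  TT_local good_top good_mono)
open Pool.Agent.H863R2.Cyl (Wd Tc rows FSpec push)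

/-- least `k` such that the configuration is good -/
noncomputable def kg (a : ℕ) (F : Finset Edg) : ℕ := sInf {k | Good (10 * a) (2 * a) k F}

theorem good_ex {a : ℕ} (ha : 0 < a) : ∃ B : ℕ, ∀ F, Good (10 * a) (2 * a) B F :=
  ⟨_, fun F => good_top (by omega) (by omega) F le_rfl⟩

theorem kg_good {a : ℕ} (ha : 0 < a) (F : Finset Edg) : Good (10 * a) (2 * a) (kg a F) F := by
  obtain ⟨B, hB⟩ := good_ex ha
  exact Nat.sInf_mem (s := {k | Good (10 * a) (2 * a) k F}) ⟨B, hB F⟩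

theorem kg_le {a : ℕ} {B : ℕ} {F : Finset Edg} (hB : Good (10 * a) (2 * a) B F) : kg a F ≤ B :=
  Nat.sInf_le hB

/-- layer cake -/
theorem cake {a : ℕ} {u : ℝ} (hu : 1 ≤ u) {B : ℕ}
    (hB : ∀ F, Good (10 * a) (2 * a) B F) (F : Finset Edg) :
    u ^ kg a F ≤ 1 + ∑ k ∈ range B, u ^ (k + 1) * ind (¬ Good (10 * a) (2 * a) k F) := by
  have hk := kg_le (hB F)
  have hu0 : 0 ≤ u := by linarith
  have hnn : ∀ k ∈ range B, 0 ≤ u ^ (k + 1) * ind (¬ Good (10 * a) (2 * a) k F) := by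
    intro k _
    apply mul_nonneg (by positivity)
    unfold ind
    split_ifs <;> norm_num
  rcases Nat.eq_zero_or_pos (kg a F) with h0 | h0
  · rw [h0, pow_zero]
    have := Finset.sum_nonneg hnn
    linarith
  · obtain ⟨m, hm⟩ : ∃ m, kg a F = m + 1 := ⟨kg a F - 1, by omega⟩
    have hmB : m ∈ range B := by
      rw [mem_range]; omega
    have h1 := Finset.single_le_sum hnn hmB
    have h2 : ¬ Good (10 * a) (2 * a) m F := fun h => by
      have := kg_le h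
      omega
    rw [ind_of h2, mul_one] at h1
    rw [hm]
    linarith

theorem geom {x : ℝ} (h0 : 0 ≤ x) (h1 : x ≤ 1 / 2) (B : ℕ) : ∑ k ∈ range B, x ^ k ≤ 2 := by
  have h2 : ∑ k ∈ range B, x ^ k ≤ (1 - x)⁻¹ := by
    rw [← tsum_geometric_of_lt_one h0 (by linarith)]
    exact (summable_geometric_of_lt_one h0 (by linarith)).sum_le_tsum _
      (fun i _ => pow_nonneg h0 i)
  have h3 : (1 - x)⁻¹ ≤ 2 := by
    rw [inv_le_comm₀ (by linarith) (by norm_num)]
    linarith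
  linarith

theorem amgm {x y z : ℝ} (hx : 0 ≤ x) : x * y * z ≤ 1 / 2 * (x * y ^ 2) + 1 / 2 * (x * z ^ 2) := by
  have : 0 ≤ x * (y - z) ^ 2 := by positivity
  nlinarith

theorem TT_P4 {a : ℕ} (F : Finset Edg) :
    TT (per (10 * a) F) (4 * a) = NA (pf (10 * a) (boxE (4 * a)) F) (0, 0) 0 (4 * a) := by
  rw [NA_eq, NS_zero]
  apply TT_local
  intro e he
  rw [Finset.mem_coe, mem_pf]
  exact ⟨fun h => ⟨he, h⟩, fun h => h.2⟩

theorem Ex_P4 {a : ℕ} (ha : 0 < a) (A : Finset Edg → ℝ) :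
    Ex P2 (CE (10 * a) (20 * a)) (fun F => A (pf (10 * a) (boxE (4 * a)) F)) =
      Ex P2 (bx (0, 0) (4 * a : ℕ)) A := by
  rw [bx_zero]
  exact Pool.Agent.H863R2.NL.AvgAux.Ex_red (n := 10 * a) (q := 1/2) (S := CE (10 * a) (20 * a))
    (B := boxE (4 * a)) (by unfold boxE; exact red_inj_x (by omega))
    (by unfold boxE; exact image_red_sub (by omega) (by omega) (by omega)) A

theorem dep {a c : ℕ} (hG : Geo NA) (hc : c ≤ 2 * a - 1) (F : Finset Edg) :
    NA (pf (10 * a) (boxE (4 * a)) F) (0, 0) 0 c =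
      NA (pf (10 * a) (boxE (4 * a)) (F ∩ (boxE (2 * a - 1)).image (red (10 * a)))) (0, 0) 0 c := by
  rw [hG.loc _ _ 0 c (Nat.zero_le _), hG.loc (pf (10 * a) (boxE (4 * a))
    (F ∩ (boxE (2 * a - 1)).image (red (10 * a)))) _ 0 c (Nat.zero_le _)]
  congr 1
  ext e
  rw [mem_inter, mem_inter, mem_pf, mem_pf, mem_inter]
  constructor
  · rintro ⟨⟨h1, h2⟩, h3⟩
    refine ⟨⟨h1, h2, Finset.mem_image_of_mem _ ?_⟩, h3⟩
    have h4 : e ∈ bx (0, 0) (c : ℤ) := an_sub h3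
    rw [← bx_zero]
    exact bx_mono _ (by omega) h4
  · rintro ⟨⟨h1, h2, _⟩, h3⟩
    exact ⟨⟨h1, h2⟩, h3⟩

theorem main (h : Sys NA Wc Kc) (hl : LocG NA) (hi : InB NA Wc) (hB : BadX) {t : ℝ}
    (ht : 1 ≤ t) : ∃ C : ℝ, 0 < C ∧ ∀ a : ℕ, 2 ≤ a →
      EN (10 * a) (fun m => t ^ m) ≤ C * G NA t 0 (4 * a) := by
  have ht0 : 0 < t := by linarith
  obtain ⟨A, hA, h1⟩ := hi t (t ^ 2) 8 ht (one_le_pow₀ ht)
  set u : ℝ := t ^ 20 with hu
  have hu1 : 1 ≤ u := one_le_pow₀ ht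
  have hu0 : 0 < u := by linarith
  obtain ⟨C1, hC1, h2⟩ := hB (1 / (2 * u)) (by positivity)
  refine ⟨1 / 2 * A + 1 / 2 * (t ^ 2 * (1 + 2 * C1 * u)), by positivity, ?_⟩
  intro a ha
  have ha0 : 0 < a := by omega
  obtain ⟨c, hc⟩ : ∃ c, c = a - 1 := ⟨_, rfl⟩
  obtain ⟨B, hBg⟩ := good_ex ha0
  set P4 : Finset Edg → Finset Edg := fun F => pf (10 * a) (boxE (4 * a)) F with hP4
  set X : Finset Edg → ℝ := fun F => t ^ NA (P4 F) (0, 0) 0 (2 * c) with hX
  have hX0 : ∀ F, 0 ≤ X F := fun F => by positivity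
  -- expectation of `X`
  have eX : Ex P2 (CE (10 * a) (20 * a)) X = G NA t 0 (2 * c) := by
    rw [← hl t (0, 0) 0 (2 * c) (bx (0, 0) (4 * a : ℕ)) (Nat.zero_le _) (bx_mono _ (by omega))]
    exact Ex_P4 ha0 (fun F => t ^ NA F (0, 0) 0 (2 * c))
  have hGm : G NA t 0 (2 * c) ≤ G NA t 0 (4 * a) := by
    rw [← hl t (0, 0) 0 (2 * c) (bx (0, 0) (4 * a : ℕ)) (Nat.zero_le _) (bx_mono _ (by omega))]
    apply Ex_mono ok2
    intro F _
    exact pow_le_pow_right₀ ht (h.geo.mono F (0, 0) 0 0 (2 * c) (4 * a) le_rfl (by omega))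
  have e1 := EN_avg (n := 10 * a) (by omega) (20 * a) (fun m => t ^ m)
  rw [e1]
  have step : Ex (fun _ => (1/2 : ℝ)) (CE (10 * a) (20 * a)) (fun F =>
      ∑ σ : Wd (2 * (10 * a) - 1 + 1), ∑ τ : Wd (2 * (10 * a) - 1 + 1),
      mu (10 * a) σ * mu (10 * a) τ * t ^ (fN (rows (2 * (10 * a) - 1) (dn (10 * a) (20 * a) F)
        (20 * a) σ).1 (rows (2 * (10 * a) - 1) (up (10 * a) (20 * a) F) (20 * a) τ).1)) ≤
      Ex P2 (CE (10 * a) (20 * a)) (fun F =>
        1 / 2 * (X F * (t ^ 2) ^ (NA (P4 F) (0, 0) c (4 * a) + Wc (P4 F) (0, 0) c)) +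
        1 / 2 * (X F * (t ^ 2 * (1 + ∑ k ∈ range B, u ^ (k + 1) *
          ind (¬ Good (10 * a) (2 * a) k F))))) := by
    apply Ex_mono ok2
    intro F _
    have b1 : ∑ σ : Wd (2 * (10 * a) - 1 + 1), ∑ τ : Wd (2 * (10 * a) - 1 + 1),
        mu (10 * a) σ * mu (10 * a) τ * t ^ (fN (rows (2 * (10 * a) - 1) (dn (10 * a) (20 * a) F)
        (20 * a) σ).1 (rows (2 * (10 * a) - 1) (up (10 * a) (20 * a) F) (20 * a) τ).1) ≤
        X F * t ^ (NA (P4 F) (0, 0) c (4 * a) + Wc (P4 F) (0, 0) c) * t ^ (1 + 10 * kg a F) := by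
      apply Pool.Agent.H863R2.NL.CmpAux.avg_le
      intro σ τ
      have h3 := f_le fN_spec ha0 le_rfl (kg_good ha0 F) σ τ
      rw [TT_P4] at h3
      change _ ≤ NA (P4 F) (0, 0) 0 (4 * a) + 1 + 10 * kg a F at h3
      have h4 := h.join (P4 F) (0, 0) c 0 (4 * a) (by omega) (Nat.zero_le _) (by omega)
      rw [← pow_add, ← pow_add]
      apply pow_le_pow_right₀ ht
      omega
    refine b1.trans ((amgm (hX0 F)).trans ?_)
    rw [sq_pow, sq_pow]
    have b2 : (t ^ 2) ^ (1 + 10 * kg a F) = t ^ 2 * u ^ kg a F := by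
      rw [hu, pow_add, pow_one, ← pow_mul, ← pow_mul]
      congr 2
      ring
    rw [b2]
    have b3 := cake hu1 hBg F
    have b4 : 0 ≤ 1 / 2 * X F * t ^ 2 := by have := hX0 F; positivity
    have b5 := mul_le_mul_of_nonneg_left b3 b4
    have e5 : 1 / 2 * X F * t ^ 2 * u ^ kg a F = 1 / 2 * (X F * (t ^ 2 * u ^ kg a F)) := by ring
    have e6 : 1 / 2 * X F * t ^ 2 * (1 + ∑ k ∈ range B, u ^ (k + 1) *
        ind (¬ Good (10 * a) (2 * a) k F)) = 1 / 2 * (X F * (t ^ 2 * (1 + ∑ k ∈ range B,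
        u ^ (k + 1) * ind (¬ Good (10 * a) (2 * a) k F)))) := by ring
    rw [e5, e6] at b5
    linarith
  refine step.trans ?_
  rw [Ex_add, Ex_mul_left, Ex_mul_left]
  -- first term
  have f1 : Ex P2 (CE (10 * a) (20 * a)) (fun F => X F *
      (t ^ 2) ^ (NA (P4 F) (0, 0) c (4 * a) + Wc (P4 F) (0, 0) c)) ≤ A * G NA t 0 (2 * c) := by
    have := h1 (0, 0) 0 c (4 * a) (bx (0, 0) (4 * a : ℕ)) (Nat.zero_le _) (by omega) (by omega)
      (by omega) Subset.rfl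
    refine le_trans (le_of_eq ?_) this
    exact Ex_P4 ha0 (fun F => t ^ NA F (0, 0) 0 (2 * c) *
      (t ^ 2) ^ (NA F (0, 0) c (4 * a) + Wc F (0, 0) c))
  -- second term
  have f2 : Ex P2 (CE (10 * a) (20 * a)) (fun F => X F * (t ^ 2 * (1 + ∑ k ∈ range B,
      u ^ (k + 1) * ind (¬ Good (10 * a) (2 * a) k F)))) ≤
      t ^ 2 * (1 + 2 * C1 * u) * G NA t 0 (2 * c) := by
    have e : (fun F => X F * (t ^ 2 * (1 + ∑ k ∈ range B,
        u ^ (k + 1) * ind (¬ Good (10 * a) (2 * a) k F)))) =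
        fun F => t ^ 2 * (X F + ∑ k ∈ range B, u ^ (k + 1) *
          (X F * ind (¬ Good (10 * a) (2 * a) k F))) := by
      funext F
      rw [mul_left_comm, mul_add, mul_one, Finset.mul_sum]
      congr 2
      apply Finset.sum_congr rfl
      intro k _
      ring
    rw [e, Ex_mul_left, Ex_add, Ex_sum]
    have f3 : ∑ k ∈ range B, Ex P2 (CE (10 * a) (20 * a)) (fun F => u ^ (k + 1) *
        (X F * ind (¬ Good (10 * a) (2 * a) k F))) ≤ 2 * C1 * u * G NA t 0 (2 * c) := by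
      have hGnn := G_nonneg NA ht0 0 (2 * c)
      calc ∑ k ∈ range B, Ex P2 (CE (10 * a) (20 * a)) (fun F => u ^ (k + 1) *
            (X F * ind (¬ Good (10 * a) (2 * a) k F)))
          ≤ ∑ k ∈ range B, C1 * u * G NA t 0 (2 * c) * (1 / 2) ^ k := by
            apply Finset.sum_le_sum
            intro k _
            rw [Ex_mul_left]
            have g1 := h2 a ha0 X hX0 (fun F _ => by
              show t ^ NA (P4 F) (0, 0) 0 (2 * c) = _
              rw [dep h.geo (by omega) F]) k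
            rw [eX] at g1
            have g2 := mul_le_mul_of_nonneg_left g1 (by positivity : (0 : ℝ) ≤ u ^ (k + 1))
            refine g2.trans (le_of_eq ?_)
            have : u ^ (k + 1) * (C1 * (1 / (2 * u)) ^ k * G NA t 0 (2 * c)) =
                C1 * u * G NA t 0 (2 * c) * (u ^ k * (1 / (2 * u)) ^ k) := by ring
            rw [this, ← mul_pow]
            congr 2
            field_simp
        _ = C1 * u * G NA t 0 (2 * c) * ∑ k ∈ range B, (1 / 2 : ℝ) ^ k := by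
            rw [Finset.mul_sum]
        _ ≤ C1 * u * G NA t 0 (2 * c) * 2 :=
            mul_le_mul_of_nonneg_left (geom (by norm_num) le_rfl B) (by positivity)
        _ = _ := by ring
    rw [eX]
    calc t ^ 2 * (G NA t 0 (2 * c) + ∑ k ∈ range B, Ex P2 (CE (10 * a) (20 * a))
          (fun F => u ^ (k + 1) * (X F * ind (¬ Good (10 * a) (2 * a) k F))))
        ≤ t ^ 2 * (G NA t 0 (2 * c) + 2 * C1 * u * G NA t 0 (2 * c)) :=
          mul_le_mul_of_nonneg_left (by linarith) (by positivity)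
      _ = _ := by ring
  have hk : 0 ≤ 1 / 2 * A + 1 / 2 * (t ^ 2 * (1 + 2 * C1 * u)) := by positivity
  have := mul_le_mul_of_nonneg_left hGm hk
  linarith

end Pool.Agent.W819.NC.OneLoAux

namespace Pool.Agent.W819.NC
open H974 H906.Cyl Finset Pool.Agent.W819.EN OneLoAux

theorem t_ONELO (hI : SInt) (h : Sys NA Wc Kc) (hl : LocG NA) (hi : InB NA Wc) (hB : BadX) :
    OneLo := by
  intro t ht
  have ht0 : 0 < t := by linarith
  obtain ⟨C, hC, h1⟩ := main h hl hi hB ht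
  obtain ⟨c1, C1, hc1, hC1, h2⟩ := Cyl.cyl hI ht0
  set x : ℝ := Psi t with hx
  have hG1 : ∀ R, 1 ≤ G NA t 0 R := by
    intro R
    have := Ex_mono ok2 (S := bx (0, 0) (R : ℤ)) (f := fun _ => (1 : ℝ))
      (g := fun F => t ^ NA F (0, 0) 0 R) (fun F _ => one_le_pow₀ ht)
    rw [Ex_const] at this
    exact this
  have hmono : ∀ R R' : ℕ, R ≤ R' → G NA t 0 R ≤ G NA t 0 R' := by
    intro R R' hRR
    rw [← hl t (0, 0) 0 R (bx (0, 0) (R' : ℤ)) (Nat.zero_le _) (bx_mono _ (by exact_mod_cast hRR))]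
    apply Ex_mono ok2
    intro F _
    exact pow_le_pow_right₀ ht (h.geo.mono F (0, 0) 0 0 R R' le_rfl hRR)
  refine ⟨min ((8 : ℝ) ^ (-|x|)) (c1 / C * 3 ^ (-|x|)), by positivity, ?_⟩
  intro R hR
  have hR1 : (1 : ℝ) ≤ R := by exact_mod_cast hR
  have hRp : 0 < (R : ℝ) ^ x := by positivity
  by_cases hsm : R < 8
  · have hR8 : (R : ℝ) ≤ 8 := by exact_mod_cast hsm.le
    have k2 : (R : ℝ) ^ x ≤ 8 ^ |x| :=
      (Real.rpow_le_rpow_of_exponent_le hR1 (le_abs_self x)).trans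
        (Real.rpow_le_rpow (by positivity) hR8 (abs_nonneg x))
    calc min ((8 : ℝ) ^ (-|x|)) (c1 / C * 3 ^ (-|x|)) * (R : ℝ) ^ x
        ≤ 8 ^ (-|x|) * 8 ^ |x| := by
          apply mul_le_mul (min_le_left _ _) k2 hRp.le (by positivity)
      _ = 1 := by
          rw [← Real.rpow_add (by norm_num)]
          simp
      _ ≤ _ := hG1 R
  · obtain ⟨a, ha⟩ : ∃ a, a = R / 4 := ⟨_, rfl⟩
    have ha0 : 2 ≤ a := by omega
    have hn1 : (R : ℝ) ≤ ((10 * a : ℕ) : ℝ) := by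
      exact_mod_cast (by omega : R ≤ 10 * a)
    have hn2 : ((10 * a : ℕ) : ℝ) ≤ 3 * R := by
      exact_mod_cast (by omega : 10 * a ≤ 3 * R)
    have k1 := h1 a ha0
    have k4 := (h2 (10 * a) (by omega)).1
    have k5 := hmono (4 * a) R (by omega)
    have k3 : (3 : ℝ) ^ (-|x|) * (R : ℝ) ^ x ≤ ((10 * a : ℕ) : ℝ) ^ x := by
      rcases le_total 0 x with h0 | h0
      · have : (3 : ℝ) ^ (-|x|) ≤ 1 :=
          Real.rpow_le_one_of_one_le_of_nonpos (by norm_num) (by simp)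
        calc (3 : ℝ) ^ (-|x|) * (R : ℝ) ^ x ≤ 1 * (R : ℝ) ^ x :=
              mul_le_mul_of_nonneg_right this hRp.le
          _ = (R : ℝ) ^ x := one_mul _
          _ ≤ _ := Real.rpow_le_rpow (by positivity) hn1 h0
      · rw [abs_of_nonpos h0, neg_neg, ← Real.mul_rpow (by norm_num) (by positivity)]
        exact Real.rpow_le_rpow_of_nonpos (by positivity) hn2 h0
    have k6 : c1 * ((10 * a : ℕ) : ℝ) ^ x ≤ C * G NA t 0 R :=
      k4.trans (k1.trans (mul_le_mul_of_nonneg_left k5 hC.le))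
    calc min ((8 : ℝ) ^ (-|x|)) (c1 / C * 3 ^ (-|x|)) * (R : ℝ) ^ x
        ≤ (c1 / C * 3 ^ (-|x|)) * (R : ℝ) ^ x :=
          mul_le_mul_of_nonneg_right (min_le_right _ _) hRp.le
      _ = c1 / C * (3 ^ (-|x|) * (R : ℝ) ^ x) := by ring
      _ ≤ c1 / C * ((10 * a : ℕ) : ℝ) ^ x := mul_le_mul_of_nonneg_left k3 (by positivity)
      _ ≤ G NA t 0 R := by
          rw [div_mul_eq_mul_div, div_le_iff₀ hC]
          linarith

end Pool.Agent.W819.NC
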